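import Pool.Agent.Helper85.IA.St

set_option autoImplicit false

namespace Pool.Agent.Helper54.IA85

open Finset Pool.Agent.Helper93.IA Pool.Agent.Helper85.IA

private noncomputable def dl (ε : ℝ) : ℕ → ℝ
  | 0 => ε ^ 2
  | i + 1 => (1 + 4 * ε) * (dl ε i + 6 * ε ^ 2)

private noncomputable def dd (ε η : ℝ) : ℕ → ℝ
  | 0 => 1
  | i + 1 => (1 - ε / 2) * dd ε η i + η

private noncomputable def ll (Λ ε : ℝ) : ℕ → ℝ
  | 0 => Λ
  | i + 1 => ll Λ ε i / (1 - 2 * ε)

private theorem dl_nonneg {ε : ℝ} (h : 0 < ε) (i : ℕ) : 0 ≤ dl ε i := by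
  induction i with
  | zero => simp only [dl]; positivity
  | succ i ih => simp only [dl]; positivity

private theorem dl_le {ε : ℝ} (h : 0 < ε) (i : ℕ) :
    dl ε i ≤ (1 + 4 * ε) ^ i * (ε ^ 2 + 6 * ε ^ 2 * i) := by
  induction i with
  | zero => simp [dl]
  | succ i ih =>
    simp only [dl]
    push_cast
    have h1 : (1 : ℝ) ≤ (1 + 4 * ε) ^ i := one_le_pow₀ (by linarith)
    have h2 : 0 ≤ ε ^ 2 := by positivity
    have h3 : 0 < 1 + 4 * ε := by linarith
    have h4 : (1 + 4 * ε) * (dl ε i + 6 * ε ^ 2) ≤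
        (1 + 4 * ε) * ((1 + 4 * ε) ^ i * (ε ^ 2 + 6 * ε ^ 2 * i) +
          (1 + 4 * ε) ^ i * (6 * ε ^ 2)) := by
      apply mul_le_mul_of_nonneg_left _ h3.le
      nlinarith
    refine h4.trans (le_of_eq ?_)
    ring

private theorem dd_le {ε g : ℝ} (h1 : ε ≤ 2) (i : ℕ) :
    dd ε (g * ε / 4) i ≤ (1 - ε / 2) ^ i + g / 2 ∨ g < 0 := by
  by_cases hg : g < 0
  · exact Or.inr hg
  left
  induction i with
  | zero => simp only [dd, pow_zero]; linarith
  | succ i ih =>
    simp only [dd]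
    have h3 : (1 - ε / 2) * dd ε (g * ε / 4) i ≤ (1 - ε / 2) * ((1 - ε / 2) ^ i + g / 2) :=
      mul_le_mul_of_nonneg_left ih (by linarith)
    have h4 : (1 - ε / 2) * ((1 - ε / 2) ^ i + g / 2) + g * ε / 4 =
        (1 - ε / 2) ^ (i + 1) + g / 2 := by ring
    linarith

private theorem ll_pos {Λ ε : ℝ} (h : 0 < Λ) (h1 : ε ≤ 1 / 8) (i : ℕ) : 0 < ll Λ ε i := by
  induction i with
  | zero => exact h
  | succ i ih => simp only [ll]; exact div_pos ih (by linarith)

theorem hITE : StRND → StITE := by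
  intro hRND Λ g hΛ hg
  obtain ⟨L, hL0, hL⟩ : ∃ L : ℝ, 0 < L ∧ Real.exp (-L / 2) ≤ g / 2 := by
    refine ⟨|2 * Real.log (g / 2)| + 1, by positivity, ?_⟩
    have h1 : -(|2 * Real.log (g / 2)| + 1) / 2 ≤ Real.log (g / 2) := by
      have := neg_abs_le (2 * Real.log (g / 2))
      linarith
    calc Real.exp (-(|2 * Real.log (g / 2)| + 1) / 2) ≤ Real.exp (Real.log (g / 2)) :=
          Real.exp_le_exp.mpr h1
      _ = g / 2 := Real.exp_log (by linarith)
  obtain ⟨t, ht⟩ := exists_nat_ge (max (8 * L) (4 * (Real.exp (4 * L) * (1 + 6 * L) * L)))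
  have ht1 : 8 * L ≤ t := (le_max_left _ _).trans ht
  have ht2 : 4 * (Real.exp (4 * L) * (1 + 6 * L) * L) ≤ t := (le_max_right _ _).trans ht
  have ht0 : (0 : ℝ) < t := by linarith
  obtain ⟨ε, hε⟩ : ∃ ε : ℝ, ε = L / t := ⟨_, rfl⟩
  have hεt : ε * t = L := by rw [hε]; field_simp
  have hε0 : 0 < ε := by rw [hε]; positivity
  have hε1 : ε ≤ 1 / 8 := by
    rw [hε, div_le_iff₀ ht0]; linarith
  have hε2 : Real.exp (4 * L) * (1 + 6 * L) * ε ≤ 1 / 4 := by
    rw [hε, mul_div_assoc', div_le_iff₀ ht0]; linarith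
  have hδ : ∀ i : ℕ, i ≤ t → dl ε i ≤ 1 / 4 := by
    intro i hi
    have hi' : (i : ℝ) ≤ t := by exact_mod_cast hi
    have h1 := dl_le hε0 i
    have h2 : (1 + 4 * ε) ^ i ≤ Real.exp (4 * L) := by
      calc (1 + 4 * ε) ^ i ≤ (Real.exp (4 * ε)) ^ i := by
            apply pow_le_pow_left₀ (by linarith)
            have := Real.add_one_le_exp (4 * ε)
            linarith
        _ = Real.exp (i * (4 * ε)) := by rw [← Real.exp_nat_mul]
        _ ≤ Real.exp (4 * L) := by
            apply Real.exp_le_exp.mpr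
            nlinarith
    have h3 : ε ^ 2 + 6 * ε ^ 2 * i ≤ (1 + 6 * L) * ε := by
      have : ε ^ 2 * i ≤ ε * L := by
        rw [← hεt]
        nlinarith
      nlinarith
    calc dl ε i ≤ (1 + 4 * ε) ^ i * (ε ^ 2 + 6 * ε ^ 2 * i) := h1
      _ ≤ Real.exp (4 * L) * ((1 + 6 * L) * ε) := by
          apply mul_le_mul h2 h3 (by positivity) (Real.exp_pos _).le
      _ ≤ 1 / 4 := by rw [← mul_assoc]; exact hε2
  have hd : dd ε (g * ε / 4) t ≤ g := by
    rcases dd_le (g := g) (by linarith : ε ≤ 2) t with h | h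
    · have h2 : (1 - ε / 2) ^ t ≤ Real.exp (-L / 2) := by
        calc (1 - ε / 2) ^ t ≤ (Real.exp (-(ε / 2))) ^ t := by
              apply pow_le_pow_left₀ (by linarith)
              have := Real.add_one_le_exp (-(ε / 2))
              linarith
          _ = Real.exp (t * (-(ε / 2))) := by rw [← Real.exp_nat_mul]
          _ = Real.exp (-L / 2) := by
              congr 1
              rw [← hεt]; ring
      linarith
    · linarith
  have key : ∀ j i : ℕ, i + j = t →
      Good (ll Λ ε i) (dl ε i) (dd ε (g * ε / 4) i) g := by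
    intro j
    induction j with
    | zero =>
      intro i hi
      have hi' : i = t := by omega
      subst hi'
      refine ⟨0, ?_⟩
      intro α β γ _ _ _ _ _ _ n _ A B C x hD
      have hle : dd ε (g * ε / 4) i * n ≤ g * n :=
        mul_le_mul_of_nonneg_right hd (Nat.cast_nonneg n)
      refine ⟨∅, ⟨?_, ?_, ?_, ?_, ?_, ?_⟩, ?_, ?_, ?_⟩
      · intro T hT; simp at hT
      · intro T hT; simp at hT
      · intro T hT; simp at hT
      · intro T hT; simp at hT
      · intro T hT; simp at hT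
      · intro T hT; simp at hT
      · rw [Finset.image_empty, Finset.sdiff_empty]
        exact ⟨fun a => (hD.dA.1 a).trans hle, fun b => (hD.dA.2 b).trans hle⟩
      · rw [Finset.image_empty, Finset.sdiff_empty]
        exact ⟨fun a => (hD.dB.1 a).trans hle, fun b => (hD.dB.2 b).trans hle⟩
      · rw [Finset.image_empty, Finset.sdiff_empty]
        exact ⟨fun a => (hD.dC.1 a).trans hle, fun b => (hD.dC.2 b).trans hle⟩
    | succ j ih =>
      intro i hi
      have h1 := ih (i + 1) (by omega)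
      exact hRND (ll Λ ε i) ε (dl ε i) (dd ε (g * ε / 4) i) (g * ε / 4) g (ll_pos hΛ hε1 i)
        hε0 hε1 (dl_nonneg hε0 i) (hδ i (by omega)) (by positivity) h1
  refine ⟨ε ^ 2, by positivity, ?_⟩
  exact key t 0 (by omega)

end Pool.Agent.Helper54.IA85
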