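import Pool.Agent.Helper85.IA.St

set_option autoImplicit false

namespace Pool.Agent.Helper54.IA85

open Finset Pool.Agent.Helper93.IA Pool.Agent.Helper85.IA

theorem hRPK : StRPK := by
  intro α β γ _ _ _ _ _ _ A B C x σ hσ hx
  have mem : ∀ T : α × β × γ, T ∈ P1 σ → Us σ T.1 T.2.1 T.2.2 := by
    intro T hT
    simpa [P1] using hT
  refine ⟨?_, ?_, ?_, ?_, ?_, ?_⟩
  · intro T hT
    exact (hx _ _ _ (hσ _ _ _ (mem T hT).1)).1
  · intro T hT
    exact (hx _ _ _ (hσ _ _ _ (mem T hT).1)).2.1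
  · intro T hT
    exact (hx _ _ _ (hσ _ _ _ (mem T hT).1)).2.2
  · rintro ⟨a, b, c⟩ hT ⟨a', b', c'⟩ hT' h
    have h1 := (mem _ hT).1
    have h2 := (mem _ hT').1
    simp only [eA, Prod.mk.injEq] at h
    obtain ⟨rfl, rfl⟩ := h
    simp only at h1 h2
    rw [h1] at h2
    simp only [Option.some.injEq] at h2
    rw [h2]
  · rintro ⟨a, b, c⟩ hT ⟨a', b', c'⟩ hT' h
    have h1 := mem _ hT
    have h2 := mem _ hT'
    simp only [eB, Prod.mk.injEq] at h
    obtain ⟨rfl, rfl⟩ := h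
    simp only at h1 h2
    by_cases haa : a' = a
    · rw [haa]
    · exact absurd h2.1 (h1.2.2 a' haa)
  · rintro ⟨a, b, c⟩ hT ⟨a', b', c'⟩ hT' h
    have h1 := mem _ hT
    have h2 := mem _ hT'
    simp only [eC, Prod.mk.injEq] at h
    obtain ⟨rfl, rfl⟩ := h
    simp only at h1 h2
    by_cases hbb : b' = b
    · rw [hbb]
    · exact absurd h2.1 (h1.2.1 b' hbb)

end Pool.Agent.Helper54.IA85
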